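import Pool.Agent.H76.AB.Stm

set_option autoImplicit false

/-!
# Part EX2 (crew AB, MP_34e65c_co)
-/

namespace H1.AB

open H76.AB SimpleGraph

/-- the value of a letter -/
def val {Γ E : Type} [Group Γ] (a : E → Γ) (z : E × Bool) : Γ := if z.2 then a z.1 else (a z.1)⁻¹

/-- the letter of a step -/
def Step {m N : ℕ} {w : ℕ → ℕ} {Γ : Type} [Group Γ] (a : List ℕ × List ℕ × ℕ → Γ)
    (x y : (raw Γ a m w N).V) (z : (List ℕ × List ℕ × ℕ) × Bool) : Prop :=
  (z.2 = true ∧ z.1.1 = x.1.2.1 ∧ z.1.2.1 = x.1.2.2 ∧ (raw Γ a m w N).par x z.1.2.2 = y ∧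
    y.1.1 = x.1.1 * a z.1) ∨
  (z.2 = false ∧ z.1.1 = y.1.2.1 ∧ z.1.2.1 = y.1.2.2 ∧ (raw Γ a m w N).par y z.1.2.2 = x ∧
    x.1.1 = y.1.1 * a z.1)

theorem par_val {m N : ℕ} {w : ℕ → ℕ} {Γ : Type} [Group Γ] (a : List ℕ × List ℕ × ℕ → Γ)
    (x : (raw Γ a m w N).V) (p : ℕ) (h : (raw Γ a m w N).par x p ≠ x) :
    ((raw Γ a m w N).par x p).1.1 = x.1.1 * a (x.1.2.1, x.1.2.2, p) := by
  by_cases hh : Ok m w N (p :: x.1.2.1) x.1.2.2.tail
  · have : (raw Γ a m w N).par x p =
        ⟨(x.1.1 * a (x.1.2.1, x.1.2.2, p), p :: x.1.2.1, x.1.2.2.tail), hh⟩ := dif_pos hh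
    rw [this]
  · exfalso
    exact h (dif_neg hh)

theorem exists_step {m N : ℕ} {w : ℕ → ℕ} {Γ : Type} [Group Γ] (a : List ℕ × List ℕ × ℕ → Γ)
    (x y : (raw Γ a m w N).V) (h : ((raw Γ a m w N).H m w).Adj x y) :
    ∃ z : (List ℕ × List ℕ × ℕ) × Bool, Step a x y z ∧
      (Ok m w N z.1.1 z.1.2.1 ∧ z.1.1.length < m ∧ z.1.2.2 < w z.1.1.length) ∧
      y.1.1 = x.1.1 * val a z := by
  obtain ⟨hne, ⟨p, h1, h2, h3⟩ | ⟨p, h1, h2, h3⟩⟩ := h
  · have hv := par_val a x p (by rw [h3]; exact hne.symm)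
    rw [h3] at hv
    refine ⟨((x.1.2.1, x.1.2.2, p), true), Or.inl ⟨rfl, rfl, rfl, h3, hv⟩, ⟨x.2, h1, h2⟩, ?_⟩
    simpa [val] using hv
  · have hv := par_val a y p (by rw [h3]; exact hne)
    rw [h3] at hv
    refine ⟨((y.1.2.1, y.1.2.2, p), false), Or.inr ⟨rfl, rfl, rfl, h3, hv⟩, ⟨y.2, h1, h2⟩, ?_⟩
    rw [hv]
    simp [val]

/-- the word of the letters `l i, ..., l (i + k - 1)` -/
def word {E : Type} (l : ℕ → E) : ℕ → ℕ → List E
  | _, 0 => []
  | i, k + 1 => l i :: word l (i + 1) k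

theorem word_length {E : Type} (l : ℕ → E) (k : ℕ) : ∀ i, (word l i k).length = k := by
  induction k with
  | zero => intro i; rfl
  | succ k ih => intro i; simp [word, ih]

theorem word_mem {E : Type} (l : ℕ → E) (k : ℕ) : ∀ i, ∀ z ∈ word l i k, ∃ n, z = l n := by
  induction k with
  | zero => intro i z hz; simp [word] at hz
  | succ k ih =>
    intro i z hz
    simp only [word, List.mem_cons] at hz
    rcases hz with hz | hz
    · exact ⟨i, hz⟩
    · exact ih _ z hz

theorem word_chain {E : Type} (l : ℕ → E) (R : E → E → Prop) (hR : ∀ n, R (l n) (l (n + 1)))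
    (k : ℕ) : ∀ i, (word l i k).IsChain R := by
  induction k with
  | zero => intro i; exact List.IsChain.nil
  | succ k ih =>
    intro i
    cases k with
    | zero => exact List.IsChain.singleton _
    | succ k =>
      have := ih (i + 1)
      simp only [word] at this ⊢
      exact List.IsChain.cons_cons (hR i) this

theorem word_prod {Γ E : Type} [Group Γ] (a : E → Γ) (l : ℕ → E × Bool) (γ : ℕ → Γ)
    (h : ∀ n, γ (n + 1) = γ n * val a (l n)) (k : ℕ) :
    ∀ i, γ (i + k) = γ i * ((word l i k).map (val a)).prod := by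
  induction k with
  | zero => intro i; simp [word]
  | succ k ih =>
    intro i
    have h1 := ih (i + 1)
    rw [show i + 1 + k = i + (k + 1) by ring] at h1
    rw [h1, h]
    simp [word, mul_assoc]

theorem t_EX2 : S_EX2 := by
  intro m w N g Γ _ a hword S hS hSg
  by_contra hcon
  push Not at hcon
  -- the walk
  have hnext : ∀ p : (raw Γ a m w N).V × (raw Γ a m w N).V, p.2 ∈ S →
      ∃ y ∈ S, ((raw Γ a m w N).H m w).Adj p.2 y ∧ y ≠ p.1 := by
    intro p hp
    obtain ⟨y, hy, z, hz, h1, h2, h3⟩ := hcon p.2 hp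
    by_cases hy1 : y = p.1
    · exact ⟨z, hz, h2, fun h => h3 (by rw [hy1, h])⟩
    · exact ⟨y, hy, h1, hy1⟩
  choose f hf1 hf2 hf3 using hnext
  obtain ⟨x0, hx0⟩ := hS
  let st : ℕ → {p : (raw Γ a m w N).V × (raw Γ a m w N).V // p.2 ∈ S} := fun n =>
    Nat.rec ⟨(x0, x0), hx0⟩ (fun _ p => ⟨(p.1.2, f p.1 p.2), hf1 p.1 p.2⟩) n
  let x : ℕ → (raw Γ a m w N).V := fun n => (st n).1.2
  have hst : ∀ n, st (n + 1) = ⟨((st n).1.2, f (st n).1 (st n).2), hf1 (st n).1 (st n).2⟩ :=
    fun n => rfl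
  have hxS : ∀ n, x n ∈ S := fun n => (st n).2
  have hadj : ∀ n, ((raw Γ a m w N).H m w).Adj (x n) (x (n + 1)) := fun n =>
    hf2 (st n).1 (st n).2
  have hback : ∀ n, x (n + 2) ≠ x n := fun n => hf3 (st (n + 1)).1 (st (n + 1)).2
  choose l hl1 hl2 hl3 using fun n => exists_step a (x n) (x (n + 1)) (hadj n)
  -- a repetition
  obtain ⟨i, hi, j, hj, hij, hxx⟩ := Finset.exists_ne_map_eq_of_card_lt_of_maps_to
    (s := Finset.range (S.card + 1)) (t := S) (by simp) (f := x) (fun n _ => hxS n)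
  -- order
  have key : ∀ i k, 0 < k → k ≤ g → x (i + k) = x i → False := by
    intro i k hk hkg hx
    have hne : word l i k ≠ [] := by
      intro h
      have := word_length l k i
      rw [h] at this
      simp at this
      omega
    refine hword (word l i k) hne (by rw [word_length]; exact hkg) ?_ ?_ ?_
    · intro z hz
      obtain ⟨n, rfl⟩ := word_mem l k i z hz
      exact hl2 n
    · apply word_chain
      rintro n ⟨h1, h2⟩
      rcases hl1 n with ⟨b1, c1, c2, c3, c4⟩ | ⟨b1, c1, c2, c3, c4⟩ <;>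
        rcases hl1 (n + 1) with ⟨b2, d1, d2, d3, d4⟩ | ⟨b2, d1, d2, d3, d4⟩
      · exact h2 (by rw [b1, b2])
      · apply hback n
        have e1 : (x n).1.1 = (x (n + 2)).1.1 := by
          have : (x n).1.1 * a (l n).1 = (x (n + 2)).1.1 * a (l n).1 := by
            rw [← c4, d4, h1]
          exact mul_right_cancel this
        apply Subtype.ext
        refine Prod.ext e1.symm (Prod.ext ?_ ?_)
        · rw [← d1, ← c1, h1]
        · rw [← d2, ← c2, h1]
      · apply hback n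
        rw [← c3, ← d3, h1]
      · exact h2 (by rw [b1, b2])
    · have h1 := word_prod a l (fun n => (x n).1.1) hl3 k i
      simp only [hx] at h1
      have h2 : ((word l i k).map (val a)).prod = 1 := by
        have : (x i).1.1 * 1 = (x i).1.1 * ((word l i k).map (val a)).prod := by
          rw [mul_one]; exact h1
        exact (mul_left_cancel this).symm
      exact h2
  simp only [Finset.mem_range] at hi hj
  rcases lt_or_gt_of_ne hij with h | h
  · exact key i (j - i) (by omega) (by omega) (by rw [show i + (j - i) = j by omega]; exact hxx.symm)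
  · exact key j (i - j) (by omega) (by omega) (by rw [show j + (i - j) = i by omega]; exact hxx)

end H1.AB
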